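import Pool.Agent.H33.Tl2

namespace Pool.Agent.Results.MP_75f5df_co.Q1

open Pool.Agent.H33.Tl Cardinal

theorem result (m n : Cardinal) (hm : 2 ≤ m ∧ m ≤ ℵ₀) (hn : 2 ≤ n ∧ n ≤ ℵ₀)
    (h : m = ℵ₀ ∨ n = ℵ₀) : ∃ (V : Type) (G : SimpleGraph V), IsTreeLike G m n ∧
      ¬@Amenable (G ≃g G) _ (autTop G) := by
  have e : #(Multiplicative (ZMod (toNat n))) = n := by
    rcases hn.2.eq_or_lt with rfl | h
    · simp [ZMod]
    · obtain ⟨k, rfl⟩ := lt_aleph0.1 h
      have : NeZero k := ⟨by rintro rfl; simpa using hn.1⟩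
      simp
  have : Nontrivial m.out :=
    one_lt_iff_nontrivial.1 (by rw [mk_out]; exact Cardinal.one_lt_two.trans_le hm.1)
  have : Nontrivial (Multiplicative (ZMod (toNat n))) :=
    one_lt_iff_nontrivial.1 (by rw [e]; exact Cardinal.one_lt_two.trans_le hn.1)
  refine ⟨_, T m.out (Multiplicative (ZMod (toNat n))), ?_, na (h.imp (fun h => ?_) fun h => ?_)⟩
  · simpa only [e, mk_out] using tree (ι := m.out) (H := Multiplicative (ZMod (toNat n)))
  · exact infinite_iff.2 (by rw [mk_out, h])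
  · exact infinite_iff.2 (by rw [e, h])

end Pool.Agent.Results.MP_75f5df_co.Q1
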